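import Mathlib

/-!
MP_90db2d_al, Q1: a finite inverse semigroup (16 elements) whose knit degree is 2.

The semigroup is the monogenic inverse subsemigroup of `Z_3 x I_3` generated by
`(1, 1 -> 2 -> 3)`, where `I_3` is the symmetric inverse monoid on three points.
-/

set_option autoImplicit false

namespace Pool.Agent.Results.MP_90db2d_al.InverseKnitTwo

/-- `S` is an inverse semigroup: each `x` has a unique `y` with `xyx = x` and `yxy = y`. -/
def IsInverseSemigroup (S : Type) [Semigroup S] : Prop :=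
  ∀ x : S, ∃! y : S, x * y * x = x ∧ y * x * y = y

/-- `x` is central. -/
def Central {S : Type} [Semigroup S] (x : S) : Prop := ∀ y : S, x * y = y * x

/-- The commuting graph: the vertices are the non-central elements, two distinct vertices
are adjacent exactly when they commute. -/
def commutingGraph (S : Type) [Semigroup S] : SimpleGraph {x : S // ¬ Central x} where
  Adj x y := x ≠ y ∧ x.1 * y.1 = y.1 * x.1
  symm := ⟨fun _ _ h => ⟨h.1.symm, h.2.symm⟩⟩
  loopless := ⟨fun _ h => h.1 rfl⟩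

/-- A path `p 0 - p 1 - ... - p n` (of length `n`) in the commuting graph: the vertices are
pairwise distinct except that possibly `p 0 = p n`, consecutive vertices are adjacent, and
the edges are pairwise distinct. -/
def IsPath (S : Type) [Semigroup S] (n : ℕ) (p : Fin (n + 1) → {x : S // ¬ Central x}) : Prop :=
  (∀ i j, i ≠ j → p i = p j → (i = 0 ∧ j = Fin.last n) ∨ (i = Fin.last n ∧ j = 0)) ∧
  (∀ i : Fin n, (commutingGraph S).Adj (p i.castSucc) (p i.succ)) ∧
  (∀ i j : Fin n, i ≠ j → s(p i.castSucc, p i.succ) ≠ s(p j.castSucc, p j.succ))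

/-- A left path of length `n`. -/
def IsLeftPath (S : Type) [Semigroup S] (n : ℕ) (p : Fin (n + 1) → {x : S // ¬ Central x}) :
    Prop :=
  IsPath S n p ∧ p 0 ≠ p (Fin.last n) ∧
    ∀ i, (p 0).1 * (p i).1 = (p (Fin.last n)).1 * (p i).1

/-- The lengths of the left paths. -/
def leftPathLengths (S : Type) [Semigroup S] : Set ℕ := {n | ∃ p, IsLeftPath S n p}

/-- The knit degree (meaningful if there is a left path). -/
noncomputable def kd (S : Type) [Semigroup S] : ℕ := sInf (leftPathLengths S)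

/-- the multiplication table in base 16 -/
def tbl : ℕ := 0xedfeeedddfffffeddfedddfffeeeeedffedfffeeedddddfeedfee7d5dcfcffe5edf9eedd3fbbfb93edfe8e6ddfffaa8ddfedd3fbf9e9eedbdfe6ddffae88e86adfed5dcffeee775ffedffae8e6d6ddf8fedcffee7d55d5c7fedcfae87654d5c0fedfbf9eeddd33befedcbf9e7d553217edf9e7d53cb1fb92dfe65dcfae88704a

/-- the multiplication -/
def mulF (a b : Fin 16) : Fin 16 := ⟨(tbl / 16 ^ (16 * a.1 + b.1)) % 16, Nat.mod_lt _ (by norm_num)⟩

theorem mulF_assoc : ∀ a b c : Fin 16, mulF (mulF a b) c = mulF a (mulF b c) := by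
  decide +kernel

/-- The semigroup. -/
structure T where
  /-- the code -/
  v : Fin 16
deriving DecidableEq, Fintype

instance : Mul T := ⟨fun a b => ⟨mulF a.v b.v⟩⟩

instance : Semigroup T where
  mul_assoc a b c := congrArg T.mk (mulF_assoc a.v b.v c.v)

theorem mul_v (a b : T) : (a * b).v = mulF a.v b.v := rfl

theorem T.ext' {a b : T} (h : a.v = b.v) : a = b := by
  cases a; cases b; cases h; rfl

theorem inv_aux : ∀ x : Fin 16, ∃ y : Fin 16, (mulF (mulF x y) x = x ∧ mulF (mulF y x) y = y) ∧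
    ∀ z : Fin 16, (mulF (mulF x z) x = x ∧ mulF (mulF z x) z = z) → z = y := by
  decide +kernel

theorem inv_T : IsInverseSemigroup T := by
  intro x
  obtain ⟨y, ⟨h1, h2⟩, h3⟩ := inv_aux x.v
  refine ⟨⟨y⟩, ⟨T.ext' h1, T.ext' h2⟩, ?_⟩
  rintro ⟨z⟩ ⟨hz1, hz2⟩
  exact T.ext' (h3 z ⟨congrArg T.v hz1, congrArg T.v hz2⟩)

/-- centrality of codes -/
def centF (a : Fin 16) : Prop := ∀ b : Fin 16, mulF a b = mulF b a

instance (a : Fin 16) : Decidable (centF a) := by unfold centF; infer_instance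

theorem central_iff (x : T) : Central x ↔ centF x.v := by
  constructor
  · intro h b
    exact congrArg T.v (h ⟨b⟩)
  · rintro h ⟨b⟩
    exact T.ext' (h b)

theorem no_one : ∀ x y : Fin 16, x ≠ y → ¬ centF x → ¬ centF y → mulF x y = mulF y x →
    mulF x x = mulF y x → mulF x y = mulF y y → False := by
  decide +kernel

theorem no_left_one (p : Fin 2 → {x : T // ¬ Central x}) : ¬ IsLeftPath T 1 p := by
  rintro ⟨⟨-, hadj, -⟩, hne, hl⟩
  have h01 := hadj 0
  have hA : (p 0).1 * (p 1).1 = (p 1).1 * (p 0).1 := h01.2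
  have hB : (p 0).1 * (p 0).1 = (p 1).1 * (p 0).1 := hl 0
  have hC : (p 0).1 * (p 1).1 = (p 1).1 * (p 1).1 := hl 1
  have hne' : (p 0).1.v ≠ (p 1).1.v := by
    intro h
    exact hne (Subtype.ext (T.ext' h))
  exact no_one _ _ hne' (fun h => (p 0).2 ((central_iff _).2 h))
    (fun h => (p 1).2 ((central_iff _).2 h)) (congrArg T.v hA) (congrArg T.v hB)
    (congrArg T.v hC)

theorem nc0 : ¬ Central (⟨0⟩ : T) := by
  rw [central_iff]; decide +kernel
theorem nc10 : ¬ Central (⟨10⟩ : T) := by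
  rw [central_iff]; decide +kernel
theorem nc8 : ¬ Central (⟨8⟩ : T) := by
  rw [central_iff]; decide +kernel

/-- the left path of length two -/
def pth : Fin 3 → {x : T // ¬ Central x} := ![⟨⟨0⟩, nc0⟩, ⟨⟨10⟩, nc10⟩, ⟨⟨8⟩, nc8⟩]

theorem p0 : pth 0 = ⟨⟨0⟩, nc0⟩ := rfl
theorem p1 : pth 1 = ⟨⟨10⟩, nc10⟩ := rfl
theorem p2 : pth 2 = ⟨⟨8⟩, nc8⟩ := rfl

theorem left_two : IsLeftPath T 2 pth := by
  have inj : ∀ i j, pth i = pth j → i = j := by
    intro i j h
    have h' : (pth i).1.v = (pth j).1.v := by rw [h]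
    fin_cases i <;> fin_cases j <;> first | rfl | (exfalso; revert h'; decide)
  refine ⟨⟨?_, ?_, ?_⟩, ?_, ?_⟩
  · intro i j hij h
    exact absurd (inj i j h) hij
  · intro i
    fin_cases i
    · refine ⟨fun h => ?_, T.ext' (by decide +kernel)⟩
      exact absurd (inj 0 1 h) (by decide)
    · refine ⟨fun h => ?_, T.ext' (by decide +kernel)⟩
      exact absurd (inj 1 2 h) (by decide)
  · intro i j hij h
    rw [Sym2.eq_iff] at h
    rcases h with ⟨h1, -⟩ | ⟨h1, h2⟩
    · have := inj _ _ h1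
      exact hij (Fin.castSucc_injective _ this)
    · have h3 := inj _ _ h1
      have h4 := inj _ _ h2
      fin_cases i <;> fin_cases j <;> first | exact hij rfl | (revert h3 h4; decide)
  · intro h
    exact absurd (inj 0 2 h) (by decide)
  · intro i
    fin_cases i <;> exact T.ext' (by decide +kernel)

theorem kd_T : kd T = 2 := by
  have h2 : 2 ∈ leftPathLengths T := ⟨pth, left_two⟩
  apply le_antisymm (Nat.sInf_le h2)
  have hmem : kd T ∈ leftPathLengths T := Nat.sInf_mem ⟨2, h2⟩
  by_contra hlt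
  have hlt' : kd T < 2 := Nat.lt_of_not_le hlt
  generalize hk : kd T = k at hmem hlt'
  rcases k with _ | _ | k
  · obtain ⟨p, -, hne, -⟩ := hmem
    exact hne rfl
  · obtain ⟨p, hp⟩ := hmem
    exact no_left_one p hp
  · omega

theorem result : ∃ (S : Type) (_ : Semigroup S), Finite S ∧ IsInverseSemigroup S ∧
    (∃ a b : S, a * b ≠ b * a) ∧ (leftPathLengths S).Nonempty ∧ kd S = 2 := by
  refine ⟨T, inferInstance, inferInstance, inv_T, ⟨⟨0⟩, ⟨1⟩, ?_⟩, ⟨2, pth, left_two⟩, kd_T⟩
  intro h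
  have := congrArg T.v h
  revert this
  show mulF 0 1 = mulF 1 0 → False
  decide +kernel

end Pool.Agent.Results.MP_90db2d_al.InverseKnitTwo
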