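import Mathlib

set_option autoImplicit false

/-!
# A finite inverse semigroup of knit degree two

The example is the monogenic inverse semigroup generated by the partial injection
`0 ↦ 1 ↦ 2 ↦ 0`, `3 ↦ 4 ↦ 5` of a set with six elements. It has sixteen elements.
-/

namespace Pool.Agent.Results.MP_90db2d_al.KnitDegreeTwo

/-- A semigroup is an inverse semigroup if every element `x` has exactly one `y` with
`x y x = x` and `y x y = y`. -/
def IsInverseSemigroup (S : Type) [Semigroup S] : Prop :=
  ∀ x : S, ∃! y : S, x * y * x = x ∧ y * x * y = y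

/-- `x` is a vertex of the commuting graph: it is not in the center. -/
def IsVertex {S : Type} [Semigroup S] (x : S) : Prop :=
  ¬ ∀ y : S, x * y = y * x

/-- `x 0 - x 1 - ⋯ - x m` is a left path of length `m` in the commuting graph: the `x i` are
pairwise distinct vertices, consecutive ones commute, the end points are different, and
`x 0 * x i = x m * x i` for all `i`. (As the end points of a left path are different, its
vertices are pairwise distinct, and hence so are its edges.) -/
structure IsLeftPath {S : Type} [Semigroup S] (m : ℕ) (x : Fin (m + 1) → S) : Prop where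
  vertex : ∀ i, IsVertex (x i)
  distinct : Function.Injective x
  adjacent : ∀ i : Fin m, x i.castSucc * x i.succ = x i.succ * x i.castSucc
  ends : x 0 ≠ x (Fin.last m)
  left : ∀ i, x 0 * x i = x (Fin.last m) * x i

/-- The knit degree: the smallest length of a left path. -/
noncomputable def knitDegree (S : Type) [Semigroup S] : ℕ :=
  sInf {m | ∃ x : Fin (m + 1) → S, IsLeftPath m x}

/-- The multiplication table of the example, written in base sixteen. -/
def tbl : ℕ := 0xf66cbacbb65f6cab6e6cbc98b6beec9866dcbccb76b6d2c7cccb6bb66c6ccbb6bbb6c66ccbcbb66ccacb6b5f6c6aab5fcc9b6bb6ec6c98be8bb6ce6ccb98b6ecb7b6c6d2cbc776d2666cbccbb6b66ccbbb56c66cabcb5f6afe6cba98b654ec186edcbc9876be32902ccb67b66cd2cb76ca9b6b5fec6a185487b6ced2cb907632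

/-- The example. -/
def Q : Type := Fin 16

instance : Fintype Q := inferInstanceAs (Fintype (Fin 16))

instance : DecidableEq Q := inferInstanceAs (DecidableEq (Fin 16))

/-- The multiplication of the example. -/
def mulQ (i j : Q) : Q :=
  (⟨(tbl / 16 ^ (16 * (Fin.val (n := 16) i) + Fin.val (n := 16) j)) % 16,
    Nat.mod_lt _ (by decide)⟩ : Fin 16)

instance : Mul Q := ⟨mulQ⟩

set_option maxRecDepth 100000 in
theorem mulQ_assoc : ∀ a b c : Q, a * b * c = a * (b * c) := by decide

instance : Semigroup Q where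
  mul_assoc := mulQ_assoc

/-- Element number `i`. -/
def q (i : Fin 16) : Q := i

set_option maxRecDepth 100000 in
theorem inverse_Q : ∀ x : Q, ∃ y : Q, (x * y * x = x ∧ y * x * y = y) ∧
    ∀ z : Q, (x * z * x = x ∧ z * x * z = z) → z = y := by decide

set_option maxRecDepth 100000 in
theorem no_one : ∀ x y : Q, ¬ ((¬ ∀ z : Q, x * z = z * x) ∧ (¬ ∀ z : Q, y * z = z * y) ∧
    x * y = y * x ∧ x ≠ y ∧ x * x = y * x ∧ x * y = y * y) := by decide

set_option maxRecDepth 100000 in
theorem path_two : (¬ ∀ z : Q, q 0 * z = z * q 0) ∧ (¬ ∀ z : Q, q 2 * z = z * q 2) ∧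
    (¬ ∀ z : Q, q 7 * z = z * q 7) ∧ q 0 * q 2 = q 2 * q 0 ∧ q 2 * q 7 = q 7 * q 2 ∧
    q 0 ≠ q 2 ∧ q 0 ≠ q 7 ∧ q 2 ≠ q 7 ∧ q 0 * q 0 = q 7 * q 0 ∧ q 0 * q 2 = q 7 * q 2 ∧
    q 0 * q 7 = q 7 * q 7 ∧ q 0 * q 7 ≠ q 7 * q 0 := by decide

theorem leftPath_two : IsLeftPath 2 ![q 0, q 2, q 7] := by
  obtain ⟨v0, v2, v7, c1, c2, d1, d2, d3, l0, l2, l7, _⟩ := path_two
  refine ⟨?_, ?_, ?_, ?_, ?_⟩
  · intro i
    fin_cases i
    · exact v0
    · exact v2
    · exact v7
  · intro i j hij
    fin_cases i <;> fin_cases j <;>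
      simp_all [Matrix.cons_val_zero, Matrix.cons_val_one]
  · intro i
    fin_cases i
    · exact c1
    · exact c2
  · exact d2
  · intro i
    fin_cases i
    · exact l0
    · exact l2
    · exact l7

/-- **There is a finite non-commutative inverse semigroup whose commuting graph contains left
paths and whose knit degree is two.** -/
theorem result : ∃ (S : Type) (_ : Semigroup S), Finite S ∧ IsInverseSemigroup S ∧
    (∃ x y : S, x * y ≠ y * x) ∧
    (∃ (m : ℕ) (x : Fin (m + 1) → S), IsLeftPath m x) ∧ knitDegree S = 2 := by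
  refine ⟨Q, inferInstance, inferInstance, ?_, ?_, ⟨2, _, leftPath_two⟩, ?_⟩
  · intro x
    obtain ⟨y, hy, hy2⟩ := inverse_Q x
    exact ⟨y, hy, hy2⟩
  · exact ⟨q 0, q 7, path_two.2.2.2.2.2.2.2.2.2.2.2⟩
  · have hmem : (2 : ℕ) ∈ {m | ∃ x : Fin (m + 1) → Q, IsLeftPath m x} := ⟨_, leftPath_two⟩
    unfold knitDegree
    apply le_antisymm
    · exact Nat.sInf_le hmem
    · apply le_csInf ⟨2, hmem⟩
      rintro m ⟨x, hx⟩
      by_contra hm
      have hm2 : m = 0 ∨ m = 1 := by omega
      rcases hm2 with rfl | rfl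
      · exact hx.ends rfl
      · exact no_one (x 0) (x 1) ⟨hx.vertex 0, hx.vertex 1, hx.adjacent 0, hx.ends, hx.left 0,
          hx.left 1⟩

end Pool.Agent.Results.MP_90db2d_al.KnitDegreeTwo
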